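import Mathlib
import Pool.Agent.Y529.DC.Poly

/-!
# `𝔡(≠*, F)` and `𝔟(≠*, F)` for order functions `F`: equalities, and the measure ideal

(1) Let `φ ≥ 1` be non-decreasing, `B(n) = n φ(n)` and `k ≥ 1`. All functions `F` with
`2^(B(n^(1/k))) ≤ F(n) ≤ 2^(B(n^k))` have the same cardinals `𝔡(≠*, F)` and `𝔟(≠*, F)`. In particular this is
true (2) for all `F` with `2^(n^(1/k)) ≤ F(n) ≤ 2^(n^k)`, and (3) for all `F` with
`2^(2^(n^(1/k))) ≤ F(n) ≤ 2^(2^(n^k))`. So a function `G` with `𝔡(≠*, G) < 𝔡(≠*, F)` must grow much faster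
than such a function `F`.

(4), (5) If `∑ 1 / F(n) = ∞` and `∑ 1 / G(n) < ∞`, then `𝔡(≠*, G) ≤ non(𝒩)` and
`cov(𝒩) ≤ 𝔡(≠*, F)` (classical), so `𝔡(≠*, G) < 𝔡(≠*, F)` in all models of `non(𝒩) < cov(𝒩)`, for
instance in the random model.

Proof of (1). Let `J_j` be the block `[2^(j+1), 2^(j+2))` and `I_j` the block `[2^(jd), 2^((j+1)d))`, so that
`|I_j| < |J_j|^d`. A function `x` proposes in `I_j` less than `|J_j|^d` lists `u_1, ..., u_d` of functions on
`J_j`. At most `|J_j|` many `u_1` are proposed with at least `(|J_j| + 1)^(d-1)` different continuations; let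
`g_1` on `J_j` follow them, one at each place. If `z_1` is eventually different from `g_1`, then for almost
all `j` its restriction to `J_j` is proposed with fewer continuations; let `g_2` follow those `u_2` which
have at least `(|J_j| + 1)^(d-2)` continuations among them, and so on. If `z_i` is eventually different from
`g_i` for all `i ≤ d`, then `x` is eventually different from the code of the list `z_1, ..., z_d`. So the
codes of the lists of `d` members of a family for the bound `2^H` are a family for the bound `2^G`, provided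
that `2^d ∑_{m < 2^(j+2)} H(m) ≤ G(2^(jd))` for almost all `j`; dually for `𝔟`. For `d = 2` this is the idea
of the starting result `Coincidence` of `MP_65fbb9_lc` (for oracles); lists of length `d` reach the bounds
`2^(n^(1/k))`.
-/

set_option autoImplicit false

namespace Pool.Agent.Results.MP_081461_lc.EqualitiesAndMeasure

open Filter Cardinal

/-! ### Definitions used in the statement -/

/-- `x` and `y` are eventually different, `x ≠* y`. -/
def EvDiff (x y : ℕ → ℕ) : Prop := ∀ᶠ n in atTop, x n ≠ y n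

/-- The set `∏ h` of the functions `y` with `y n < h n` for all `n`. -/
def Below (h : ℕ → ℕ) : Set (ℕ → ℕ) := {y | ∀ n, y n < h n}

/-- `𝔡(≠*, h)`: the least cardinality of a set `𝒢 ⊆ ∏ h` such that every function is eventually
different from some member of `𝒢`. -/
noncomputable def dNe (h : ℕ → ℕ) : Cardinal.{0} :=
  sInf {κ | ∃ 𝒢 : Set (ℕ → ℕ), 𝒢 ⊆ Below h ∧ (∀ x : ℕ → ℕ, ∃ y ∈ 𝒢, EvDiff x y) ∧ #𝒢 = κ}

/-- `𝔟(≠*, h)`: the least cardinality of a set `ℱ` of functions such that no `y ∈ ∏ h` is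
eventually different from all members of `ℱ`. -/
noncomputable def bNe (h : ℕ → ℕ) : Cardinal.{0} :=
  sInf {κ | ∃ ℱ : Set (ℕ → ℕ), (¬ ∃ y ∈ Below h, ∀ x ∈ ℱ, EvDiff x y) ∧ #ℱ = κ}

open MeasureTheory in
/-- `cov(𝒩)`: the least number of Lebesgue null sets with union the unit interval. -/
noncomputable def covN : Cardinal.{0} :=
  sInf {κ | ∃ 𝒩 : Set (Set unitInterval), (∀ N ∈ 𝒩, volume N = 0) ∧ ⋃₀ 𝒩 = Set.univ ∧ #𝒩 = κ}

open MeasureTheory in
/-- `non(𝒩)`: the least cardinality of a subset of the unit interval which is not a Lebesgue null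
set. -/
noncomputable def nonN : Cardinal.{0} :=
  sInf {κ | ∃ A : Set unitInterval, volume A ≠ 0 ∧ #A = κ}

/-- An order function: computable, non-decreasing, unbounded, with values at least `2`. -/
def IsOrder (h : ℕ → ℕ) : Prop :=
  Computable h ∧ Monotone h ∧ (∀ b, ∃ n, b ≤ h n) ∧ ∀ n, 2 ≤ h n

/-- `G` grows faster than `F`: `G n / F n` tends to infinity. -/
def Faster (F G : ℕ → ℕ) : Prop := Tendsto (fun n => (G n : ℝ) / F n) atTop atTop

/-! ### Morphisms -/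

theorem infinite_of_wit {𝒢 : Set (ℕ → ℕ)} (h : ∀ x : ℕ → ℕ, ∃ y ∈ 𝒢, EvDiff x y) :
    𝒢.Infinite := by
  intro hfin
  obtain ⟨y0, hy0, -⟩ := h 0
  obtain ⟨e, he⟩ := hfin.countable.exists_eq_range ⟨y0, hy0⟩
  obtain ⟨y, hy, hxy⟩ := h (fun n => e (Nat.unpair n).1 n)
  rw [he] at hy
  obtain ⟨i, rfl⟩ := hy
  obtain ⟨N, hN⟩ := eventually_atTop.1 hxy
  apply hN (Nat.pair i N) (Nat.right_le_pair i N)
  simp

/-- both cardinal inequalities -/
def Le (f h : ℕ → ℕ) : Prop := dNe f ≤ dNe h ∧ bNe h ≤ bNe f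

theorem Le.trans {f g h : ℕ → ℕ} (h1 : Le f g) (h2 : Le g h) : Le f h :=
  ⟨h1.1.trans h2.1, h2.2.trans h1.2⟩

theorem morphism {f h : ℕ → ℕ} (h2 : ∀ n, 2 ≤ h n)
    (φ1 : (ℕ → ℕ) → (ℕ → ℕ)) (φ2 : (ℕ → ℕ) → (ℕ → ℕ) → (ℕ → ℕ))
    (ψ : (ℕ → ℕ) → (ℕ → ℕ) → (ℕ → ℕ))
    (hψ : ∀ z1 ∈ Below h, ∀ z2 ∈ Below h, ψ z1 z2 ∈ Below f)
    (H : ∀ z1 ∈ Below h, ∀ z2 ∈ Below h, ∀ x, EvDiff (φ1 x) z1 → EvDiff (φ2 x z1) z2 →
      EvDiff x (ψ z1 z2)) : Le f h := by
  constructor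
  · have hne : {κ | ∃ 𝒢 : Set (ℕ → ℕ), 𝒢 ⊆ Below h ∧ (∀ x : ℕ → ℕ, ∃ y ∈ 𝒢, EvDiff x y) ∧
        #𝒢 = κ}.Nonempty := by
      refine ⟨_, Below h, subset_rfl, fun x => ?_, rfl⟩
      refine ⟨fun n => if x n = 0 then 1 else 0, fun n => ?_, ?_⟩
      · have := h2 n
        show (if x n = 0 then 1 else 0) < h n
        split_ifs <;> omega
      · refine Eventually.of_forall fun n => ?_
        show x n ≠ (if x n = 0 then 1 else 0)
        split_ifs with hx <;> omega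
    obtain ⟨𝒢, hsub, hwit, hcard⟩ := csInf_mem hne
    have hinf : ℵ₀ ≤ #𝒢 := by
      have := (infinite_of_wit hwit).to_subtype
      exact Cardinal.aleph0_le_mk 𝒢
    have hle : #(Set.image2 ψ 𝒢 𝒢) ≤ #𝒢 :=
      (Cardinal.mk_image2_le).trans (Cardinal.mul_eq_self hinf).le
    have hmem : #(Set.image2 ψ 𝒢 𝒢) ∈ {κ | ∃ 𝒢 : Set (ℕ → ℕ), 𝒢 ⊆ Below f ∧
        (∀ x : ℕ → ℕ, ∃ y ∈ 𝒢, EvDiff x y) ∧ #𝒢 = κ} := by
      refine ⟨Set.image2 ψ 𝒢 𝒢, ?_, fun x => ?_, rfl⟩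
      · rintro _ ⟨z1, hz1, z2, hz2, rfl⟩
        exact hψ z1 (hsub hz1) z2 (hsub hz2)
      · obtain ⟨z1, hz1, e1⟩ := hwit (φ1 x)
        obtain ⟨z2, hz2, e2⟩ := hwit (φ2 x z1)
        exact ⟨_, ⟨z1, hz1, z2, hz2, rfl⟩, H z1 (hsub hz1) z2 (hsub hz2) x e1 e2⟩
    exact (csInf_le' hmem).trans (hle.trans hcard.le)
  · have hne : {κ | ∃ ℱ : Set (ℕ → ℕ), (¬ ∃ y ∈ Below f, ∀ x ∈ ℱ, EvDiff x y) ∧
        #ℱ = κ}.Nonempty := by
      refine ⟨_, Set.univ, ?_, rfl⟩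
      rintro ⟨y, -, hy⟩
      obtain ⟨n, hn⟩ := (hy y (Set.mem_univ _)).exists
      exact hn rfl
    obtain ⟨ℱ, hwit, hcard⟩ := csInf_mem hne
    by_cases hc : ∃ z1 ∈ Below h, ∀ x ∈ φ1 '' ℱ, EvDiff x z1
    · obtain ⟨z1, hz1, e1⟩ := hc
      have hmem : #((fun x => φ2 x z1) '' ℱ) ∈ {κ | ∃ ℱ : Set (ℕ → ℕ),
          (¬ ∃ y ∈ Below h, ∀ x ∈ ℱ, EvDiff x y) ∧ #ℱ = κ} := by
        refine ⟨_, ?_, rfl⟩
        rintro ⟨z2, hz2, e2⟩
        refine hwit ⟨ψ z1 z2, hψ z1 hz1 z2 hz2, fun x hx => ?_⟩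
        exact H z1 hz1 z2 hz2 x (e1 _ ⟨x, hx, rfl⟩) (e2 _ ⟨x, hx, rfl⟩)
      exact (csInf_le' hmem).trans (Cardinal.mk_image_le.trans hcard.le)
    · have hmem : #(φ1 '' ℱ) ∈ {κ | ∃ ℱ : Set (ℕ → ℕ),
          (¬ ∃ y ∈ Below h, ∀ x ∈ ℱ, EvDiff x y) ∧ #ℱ = κ} := ⟨_, hc, rfl⟩
      exact (csInf_le' hmem).trans (Cardinal.mk_image_le.trans hcard.le)

/-- a larger bound -/
theorem le_mono {f h : ℕ → ℕ} (h2 : ∀ n, 2 ≤ h n) (f1 : ∀ n, 2 ≤ f n)
    (hle : ∀ᶠ n in atTop, h n ≤ f n) : Le f h := by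
  refine morphism h2 (fun x => x) (fun x _ => x) (fun z _ n => if z n < f n then z n else 0) ?_ ?_
  · intro z _ _ _ n
    have := f1 n
    show (if z n < f n then z n else 0) < f n
    split_ifs with hc <;> omega
  · intro z hz _ _ x e1 _
    filter_upwards [e1, hle] with n hn1 hn2
    have h3 : z n < f n := (hz n).trans_le hn2
    show x n ≠ (if z n < f n then z n else 0)
    rw [if_pos h3]
    exact hn1

/-! ### Lists of candidates -/

section lists

open Pool.Agent.Y529.DC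

/-- code of a list of functions -/
def lcode (H : ℕ → ℕ) : List (ℕ → ℕ) → ℕ → ℕ
  | [], _ => 0
  | z :: l, j => Nat.pair (cz' H z j) (lcode H l j)

theorem lcode_bound {H : ℕ → ℕ} (l : List (ℕ → ℕ))
    (hl : ∀ z ∈ l, z ∈ Below (fun n => 2 ^ H n)) (j : ℕ) :
    lcode H l j + 1 ≤ 2 ^ (2 ^ l.length * cum H (2 ^ (j + 2))) := by
  induction l with
  | nil => exact Nat.one_le_two_pow
  | cons z l ih =>
    have h1 : cz' H z j < 2 ^ cum H (2 ^ (j + 2)) := code'_lt (hl z (by simp)) _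
    have h2 := ih (fun z hz => hl z (by simp [hz]))
    have h3 : Nat.pair (cz' H z j) (lcode H l j) < (max (cz' H z j) (lcode H l j) + 1) ^ 2 :=
      Nat.pair_lt_max_add_one_sq _ _
    have h5 : 2 ^ cum H (2 ^ (j + 2)) ≤ 2 ^ (2 ^ l.length * cum H (2 ^ (j + 2))) :=
      Nat.pow_le_pow_right (by norm_num) (Nat.le_mul_of_pos_left _ (by positivity))
    have h4 : max (cz' H z j) (lcode H l j) + 1 ≤
        2 ^ (2 ^ l.length * cum H (2 ^ (j + 2))) := by
      rcases max_choice (cz' H z j) (lcode H l j) with h | h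
      · rw [h]
        omega
      · rw [h]
        exact h2
    calc Nat.pair (cz' H z j) (lcode H l j) + 1
        ≤ (max (cz' H z j) (lcode H l j) + 1) ^ 2 := h3
      _ ≤ (2 ^ (2 ^ l.length * cum H (2 ^ (j + 2)))) ^ 2 := Nat.pow_le_pow_left h4 2
      _ = 2 ^ (2 ^ (z :: l).length * cum H (2 ^ (j + 2))) := by
          rw [← pow_mul, List.length_cons, pow_succ]
          congr 1
          ring

/-- follow the members of `T j` on the block `[2^(j+1), 2^(j+2))` -/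
noncomputable def follow (H : ℕ → ℕ) (T : ℕ → Finset ℕ) (m : ℕ) : ℕ :=
  dig' H (((T (Nat.log 2 m - 1)).toList).getD (m - 2 ^ Nat.log 2 m) 0) m

theorem follow_miss {H : ℕ → ℕ} {T : ℕ → Finset ℕ} {z : ℕ → ℕ}
    (hz : z ∈ Below (fun n => 2 ^ H n)) (he : EvDiff (follow H T) z)
    (hT : ∀ᶠ j in atTop, (T j).card ≤ 2 ^ (j + 1)) : ∀ᶠ j in atTop, cz' H z j ∉ T j := by
  obtain ⟨N, hN⟩ := eventually_atTop.1 he
  filter_upwards [hT, eventually_ge_atTop N] with j hj hjN hmem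
  obtain ⟨i, hi, hie⟩ := List.getElem_of_mem (Finset.mem_toList.2 hmem)
  have hi2 : i < 2 ^ (j + 1) := by
    have := Finset.length_toList (T j)
    omega
  have h1 : j < 2 ^ (j + 1) := (Nat.lt_succ_self j).trans Nat.lt_two_pow_self
  have h2 : Nat.log 2 (2 ^ (j + 1) + i) = j + 1 :=
    Nat.log_eq_of_pow_le_of_lt_pow (by omega) (by rw [pow_succ 2 (j + 1)]; omega)
  apply hN (2 ^ (j + 1) + i) (by omega)
  unfold follow
  rw [h2, Nat.add_sub_cancel, Nat.add_sub_cancel_left, List.getD_eq_getElem _ _ hi, hie]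
  exact dig_cz' hz j _ (by omega) (by omega)

theorem lists {H : ℕ → ℕ} {ι : Type} {Z : Set (ℕ → ℕ)} (hZ : Z ⊆ Below (fun n => 2 ^ H n))
    (hw : ∀ x : ι → ℕ → ℕ, ∃ z ∈ Z, ∀ i, EvDiff (x i) z) (d : ℕ) :
    ∀ S : ι → ℕ → Finset ℕ, (∀ i, ∀ᶠ j in atTop, (S i j).card < (2 ^ (j + 1) + 1) ^ d) →
      ∃ l : List (ℕ → ℕ), l.length = d ∧ (∀ z ∈ l, z ∈ Z) ∧
        ∀ i, ∀ᶠ j in atTop, lcode H l j ∉ S i j := by
  induction d with
  | zero =>
    intro S hS
    refine ⟨[], rfl, by simp, fun i => (hS i).mono fun j hj => ?_⟩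
    rw [pow_zero, Nat.lt_one_iff, Finset.card_eq_zero] at hj
    rw [hj]
    simp
  | succ d ih =>
    intro S hS
    obtain ⟨T, hTdef⟩ : ∃ T : ι → ℕ → Finset ℕ, T = fun i j =>
      ((S i j).image fun c => (Nat.unpair c).1).filter fun u =>
        (2 ^ (j + 1) + 1) ^ d ≤ ((S i j).filter fun c => (Nat.unpair c).1 = u).card := ⟨_, rfl⟩
    have hT : ∀ i, ∀ᶠ j in atTop, (T i j).card ≤ 2 ^ (j + 1) := by
      intro i
      filter_upwards [hS i] with j hj
      by_contra hc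
      push Not at hc
      have h1 : (T i j).card * (2 ^ (j + 1) + 1) ^ d ≤ (S i j).card :=
        calc (T i j).card * (2 ^ (j + 1) + 1) ^ d
            = ∑ _u ∈ T i j, (2 ^ (j + 1) + 1) ^ d := by rw [Finset.sum_const, smul_eq_mul]
          _ ≤ ∑ u ∈ T i j, ((S i j).filter fun c => (Nat.unpair c).1 = u).card := by
              refine Finset.sum_le_sum fun u hu => ?_
              rw [hTdef] at hu
              exact (Finset.mem_filter.1 hu).2
          _ ≤ ∑ u ∈ (S i j).image (fun c => (Nat.unpair c).1),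
              ((S i j).filter fun c => (Nat.unpair c).1 = u).card := by
              refine Finset.sum_le_sum_of_subset ?_
              rw [hTdef]
              exact Finset.filter_subset _ _
          _ = (S i j).card := (Finset.card_eq_sum_card_fiberwise
              (fun c hc => Finset.mem_image_of_mem _ hc)).symm
      have h2 : (2 ^ (j + 1) + 1) * (2 ^ (j + 1) + 1) ^ d ≤
          (T i j).card * (2 ^ (j + 1) + 1) ^ d := Nat.mul_le_mul_right _ hc
      rw [pow_succ] at hj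
      have h3 : (2 ^ (j + 1) + 1) * (2 ^ (j + 1) + 1) ^ d =
        (2 ^ (j + 1) + 1) ^ d * (2 ^ (j + 1) + 1) := Nat.mul_comm _ _
      omega
    obtain ⟨z, hz, hze⟩ := hw fun i => follow H (T i)
    have hmiss : ∀ i, ∀ᶠ j in atTop, cz' H z j ∉ T i j := fun i =>
      follow_miss (hZ hz) (hze i) (hT i)
    obtain ⟨l, hl1, hl2, hl3⟩ := ih (fun i j =>
      ((S i j).filter fun c => (Nat.unpair c).1 = cz' H z j).image fun c => (Nat.unpair c).2) (by
        intro i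
        filter_upwards [hmiss i] with j hj
        refine lt_of_le_of_lt Finset.card_image_le ?_
        by_contra hc
        push Not at hc
        apply hj
        rw [hTdef]
        refine Finset.mem_filter.2 ⟨?_, hc⟩
        have h1 : 0 < ((S i j).filter fun c => (Nat.unpair c).1 = cz' H z j).card :=
          lt_of_lt_of_le (by positivity) hc
        obtain ⟨c, hcm⟩ := Finset.card_pos.1 h1
        rw [Finset.mem_filter] at hcm
        exact Finset.mem_image.2 ⟨c, hcm.1, hcm.2⟩)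
    refine ⟨z :: l, by simp [hl1], ?_, fun i => ?_⟩
    · intro w hw2
      rcases List.mem_cons.1 hw2 with h | h
      · rw [h]
        exact hz
      · exact hl2 w h
    · filter_upwards [hl3 i] with j hj hmem
      apply hj
      refine Finset.mem_image.2 ⟨_, Finset.mem_filter.2 ⟨hmem, ?_⟩, ?_⟩
      · show (Nat.unpair (Nat.pair (cz' H z j) (lcode H l j))).1 = _
        rw [Nat.unpair_pair]
      · show (Nat.unpair (Nat.pair (cz' H z j) (lcode H l j))).2 = _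
        rw [Nat.unpair_pair]

/-- the function which proposes the code of the list `l` -/
noncomputable def prop (G H : ℕ → ℕ) (d : ℕ) (l : List (ℕ → ℕ)) (n : ℕ) : ℕ :=
  if lcode H l (Nat.log (2 ^ d) n) < 2 ^ G n then lcode H l (Nat.log (2 ^ d) n) else 0

theorem prop_below (G H : ℕ → ℕ) (d : ℕ) (l : List (ℕ → ℕ)) :
    prop G H d l ∈ Below (fun n => 2 ^ G n) := by
  intro n
  have h3 : 0 < 2 ^ G n := by positivity
  show (if _ < 2 ^ G n then _ else 0) < 2 ^ G n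
  split_ifs with hc
  · exact hc
  · exact h3

/-- the values of `x` in the block `[2^(jd), 2^((j+1)d))` -/
def vals (d : ℕ) (x : ℕ → ℕ) (j : ℕ) : Finset ℕ :=
  (Finset.Ico (2 ^ (j * d)) (2 ^ ((j + 1) * d))).image x

theorem vals_card (d : ℕ) (x : ℕ → ℕ) (j : ℕ) :
    (vals d x j).card < (2 ^ (j + 1) + 1) ^ d := by
  have h0 : 0 < 2 ^ (j * d) := by positivity
  have h1 : 0 < 2 ^ ((j + 1) * d) := by positivity
  calc (vals d x j).card ≤ (Finset.Ico (2 ^ (j * d)) (2 ^ ((j + 1) * d))).card :=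
        Finset.card_image_le
    _ < 2 ^ ((j + 1) * d) := by rw [Nat.card_Ico]; omega
    _ = (2 ^ (j + 1)) ^ d := by rw [pow_mul]
    _ ≤ (2 ^ (j + 1) + 1) ^ d := Nat.pow_le_pow_left (by omega) d

theorem prop_evDiff {G H : ℕ → ℕ} (mG : Monotone G) {d j0 : ℕ} (hd : 1 ≤ d)
    (hb : ∀ j ≥ j0, 2 ^ d * cum H (2 ^ (j + 2)) ≤ G (2 ^ (j * d))) {l : List (ℕ → ℕ)}
    (hl1 : l.length = d) (hl2 : ∀ z ∈ l, z ∈ Below (fun n => 2 ^ H n)) {x : ℕ → ℕ}
    (hx : ∀ᶠ j in atTop, lcode H l j ∉ vals d x j) : EvDiff x (prop G H d l) := by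
  obtain ⟨J, hJ⟩ := eventually_atTop.1 hx
  have h2d : 1 < 2 ^ d := Nat.one_lt_two_pow (by omega)
  refine eventually_atTop.2 ⟨(2 ^ d) ^ (J + j0), fun n hn => ?_⟩
  obtain ⟨j, hj⟩ : ∃ j, j = Nat.log (2 ^ d) n := ⟨_, rfl⟩
  have hn0 : n ≠ 0 := by
    have : 0 < (2 ^ d) ^ (J + j0) := by positivity
    omega
  have hj1 : (2 ^ d) ^ j ≤ n := by rw [hj]; exact Nat.pow_log_le_self _ hn0
  have hj2 : n < (2 ^ d) ^ (j + 1) := by rw [hj]; exact Nat.lt_pow_succ_log_self h2d n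
  have hj3 : J + j0 ≤ j := by
    rw [hj]
    exact Nat.le_log_of_pow_le h2d hn
  have e1 : (2 ^ d) ^ j = 2 ^ (j * d) := by rw [← pow_mul, mul_comm]
  have e2 : (2 ^ d) ^ (j + 1) = 2 ^ ((j + 1) * d) := by rw [← pow_mul, mul_comm]
  rw [e1] at hj1
  rw [e2] at hj2
  have hbd : lcode H l j < 2 ^ G n := by
    have h1 := lcode_bound l hl2 j
    rw [hl1] at h1
    calc lcode H l j < 2 ^ (2 ^ d * cum H (2 ^ (j + 2))) := h1
      _ ≤ 2 ^ G n := Nat.pow_le_pow_right (by norm_num) ((hb j (by omega)).trans (mG hj1))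
  unfold prop
  rw [← hj, if_pos hbd]
  intro hxe
  apply hJ j (by omega)
  rw [← hxe]
  exact Finset.mem_image.2 ⟨n, Finset.mem_Ico.2 ⟨hj1, hj2⟩, rfl⟩

theorem exists_d {h : ℕ → ℕ} (h2 : ∀ n, 2 ≤ h n) : ∃ 𝒢 : Set (ℕ → ℕ), 𝒢 ⊆ Below h ∧
    (∀ x : ℕ → ℕ, ∃ y ∈ 𝒢, EvDiff x y) ∧ #𝒢 = dNe h := by
  have hne : {κ | ∃ 𝒢 : Set (ℕ → ℕ), 𝒢 ⊆ Below h ∧ (∀ x : ℕ → ℕ, ∃ y ∈ 𝒢, EvDiff x y) ∧
      #𝒢 = κ}.Nonempty := by
    refine ⟨_, Below h, subset_rfl, fun x => ?_, rfl⟩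
    refine ⟨fun n => if x n = 0 then 1 else 0, fun n => ?_, ?_⟩
    · have := h2 n
      show (if x n = 0 then 1 else 0) < h n
      split_ifs <;> omega
    · refine Eventually.of_forall fun n => ?_
      show x n ≠ (if x n = 0 then 1 else 0)
      split_ifs with hx <;> omega
  exact csInf_mem hne

theorem exists_b (h : ℕ → ℕ) : ∃ ℱ : Set (ℕ → ℕ), (¬ ∃ y ∈ Below h, ∀ x ∈ ℱ, EvDiff x y) ∧
    #ℱ = bNe h := by
  have hne : {κ | ∃ ℱ : Set (ℕ → ℕ), (¬ ∃ y ∈ Below h, ∀ x ∈ ℱ, EvDiff x y) ∧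
      #ℱ = κ}.Nonempty := by
    refine ⟨_, Set.univ, ?_, rfl⟩
    rintro ⟨y, -, hy⟩
    obtain ⟨n, hn⟩ := (hy y (Set.mem_univ _)).exists
    exact hn rfl
  exact csInf_mem hne

/-- the step with lists of length `d` -/
theorem le_step {G H : ℕ → ℕ} (mG : Monotone G) (hH : ∀ n, 1 ≤ H n) {d j0 : ℕ} (hd : 1 ≤ d)
    (hb : ∀ j ≥ j0, 2 ^ d * cum H (2 ^ (j + 2)) ≤ G (2 ^ (j * d))) :
    Le (fun n => 2 ^ G n) (fun n => 2 ^ H n) := by
  constructor
  · obtain ⟨𝒢, hsub, hwit, hcard⟩ := exists_d (h := fun n => 2 ^ H n) (fun n => by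
      calc 2 = 2 ^ 1 := rfl
        _ ≤ 2 ^ H n := Nat.pow_le_pow_right (by norm_num) (hH n))
    have hinf : ℵ₀ ≤ #𝒢 := by
      have := (infinite_of_wit hwit).to_subtype
      exact Cardinal.aleph0_le_mk 𝒢
    have hmem : #(Set.range fun l : List 𝒢 => prop G H d (l.map Subtype.val)) ∈
        {κ | ∃ 𝒢 : Set (ℕ → ℕ), 𝒢 ⊆ Below (fun n => 2 ^ G n) ∧
          (∀ x : ℕ → ℕ, ∃ y ∈ 𝒢, EvDiff x y) ∧ #𝒢 = κ} := by
      refine ⟨_, ?_, fun x => ?_, rfl⟩
      · rintro _ ⟨l, rfl⟩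
        exact prop_below G H d _
      · obtain ⟨l, hl1, hl2, hl3⟩ := lists (ι := Unit) hsub
          (fun x => (hwit (x ())).imp fun z hz => ⟨hz.1, fun _ => hz.2⟩) d
          (fun _ => vals d x) (fun _ => Eventually.of_forall fun j => vals_card d x j)
        refine ⟨prop G H d l, ⟨l.attachWith (· ∈ 𝒢) hl2, by simp⟩, ?_⟩
        exact prop_evDiff mG hd hb hl1 (fun z hz => hsub (hl2 z hz)) (hl3 ())
    refine (csInf_le' hmem).trans (Cardinal.mk_range_le.trans ?_)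
    rw [← hcard]
    exact (Cardinal.mk_list_le_max 𝒢).trans (max_le hinf le_rfl)
  · obtain ⟨ℱ, hwit, hcard⟩ := exists_b (fun n => 2 ^ G n)
    by_contra hc
    push Not at hc
    have hw : ∀ x : ℱ → ℕ → ℕ, ∃ z ∈ Below (fun n => 2 ^ H n), ∀ i, EvDiff (x i) z := by
      intro x
      by_contra hc2
      have hmem : #(Set.range x) ∈ {κ | ∃ ℱ : Set (ℕ → ℕ),
          (¬ ∃ y ∈ Below (fun n => 2 ^ H n), ∀ x ∈ ℱ, EvDiff x y) ∧ #ℱ = κ} := by
        refine ⟨_, ?_, rfl⟩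
        rintro ⟨y, hy, hall⟩
        exact hc2 ⟨y, hy, fun i => hall _ ⟨i, rfl⟩⟩
      have h1 : bNe (fun n => 2 ^ H n) ≤ #ℱ := (csInf_le' hmem).trans Cardinal.mk_range_le
      rw [hcard] at h1
      exact absurd h1 (not_le.2 hc)
    obtain ⟨l, hl1, hl2, hl3⟩ := lists subset_rfl hw d (fun i => vals d i)
      (fun i => Eventually.of_forall fun j => vals_card d i j)
    apply hwit
    exact ⟨prop G H d l, prop_below G H d l, fun x hx =>
      prop_evDiff mG hd hb hl1 hl2 (hl3 ⟨x, hx⟩)⟩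

/-- from `2^(B(n^(1/k)))` to `2^(B(n^k))`, `B(n) = n φ(n)` -/
theorem le_root_pow {φ : ℕ → ℕ} (mφ : Monotone φ) (h1 : ∀ n, 1 ≤ φ n) {k : ℕ} (hk : 1 ≤ k) :
    Le (fun n => 2 ^ max 1 (rt k n * φ (rt k n))) (fun n => 2 ^ max 1 (n ^ k * φ (n ^ k))) := by
  refine le_step (G := fun n => max 1 (rt k n * φ (rt k n)))
    (H := fun n => max 1 (n ^ k * φ (n ^ k))) (d := k * (k + 2))
    (j0 := k * (k + 2) + 2 * (k + 1)) ?_ (fun n => le_max_left _ _) (Nat.mul_pos hk (by omega)) ?_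
  · intro a b hab
    have h2 := rt_mono hk hab
    exact max_le_max le_rfl (Nat.mul_le_mul h2 (mφ h2))
  · intro j hj
    have h2 : rt k (2 ^ (j * (k * (k + 2)))) = 2 ^ (j * (k + 2)) := by
      have e : (2 : ℕ) ^ (j * (k * (k + 2))) = (2 ^ (j * (k + 2))) ^ k := by
        rw [← pow_mul]
        congr 1
        ring
      rw [e]
      exact rt_eq hk le_rfl (Nat.pow_lt_pow_left (Nat.lt_succ_self _) (by omega))
    have h3 : ∀ m < 2 ^ (j + 2), max 1 (m ^ k * φ (m ^ k)) ≤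
        2 ^ ((j + 2) * k) * φ (2 ^ (j * (k + 2))) := by
      intro m hm
      have h4 : m ^ k ≤ 2 ^ ((j + 2) * k) := by
        rw [pow_mul]
        exact Nat.pow_le_pow_left hm.le k
      have h5 : 2 ^ ((j + 2) * k) ≤ 2 ^ (j * (k + 2)) :=
        Nat.pow_le_pow_right (by norm_num) (by nlinarith [hj, hk])
      refine max_le ?_ (Nat.mul_le_mul h4 (mφ (h4.trans h5)))
      exact Nat.mul_pos (by positivity) (h1 _)
    show 2 ^ (k * (k + 2)) * cum _ (2 ^ (j + 2)) ≤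
      max 1 (rt k (2 ^ (j * (k * (k + 2)))) * φ (rt k (2 ^ (j * (k * (k + 2))))))
    rw [h2]
    refine le_trans ?_ (le_max_right _ _)
    calc 2 ^ (k * (k + 2)) * cum (fun n => max 1 (n ^ k * φ (n ^ k))) (2 ^ (j + 2))
        ≤ 2 ^ (k * (k + 2)) * (2 ^ (j + 2) * (2 ^ ((j + 2) * k) * φ (2 ^ (j * (k + 2))))) :=
          Nat.mul_le_mul_left _ (cum_le h3)
      _ = 2 ^ (k * (k + 2) + (j + 2) + (j + 2) * k) * φ (2 ^ (j * (k + 2))) := by
          rw [pow_add, pow_add]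
          ring
      _ ≤ 2 ^ (j * (k + 2)) * φ (2 ^ (j * (k + 2))) := by
          refine Nat.mul_le_mul_right _ (Nat.pow_le_pow_right (by norm_num) ?_)
          nlinarith [hj, hk]

theorem range_le {φ F F' : ℕ → ℕ} {k : ℕ} (hk : 1 ≤ k) (mφ : Monotone φ) (h1 : ∀ n, 1 ≤ φ n)
    (hF : ∀ n, 2 ≤ F n) (hF' : ∀ n, 2 ≤ F' n)
    (hlow : ∀ᶠ n in atTop, ∀ t : ℕ, t ^ k ≤ n → 2 ^ (t * φ t) ≤ F n)
    (hup : ∀ᶠ n in atTop, F' n ≤ 2 ^ (n ^ k * φ (n ^ k))) : Le F F' := by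
  have h2 : ∀ ψ : ℕ → ℕ, ∀ n, 2 ≤ 2 ^ max 1 (ψ n) := fun ψ n =>
    calc 2 = 2 ^ 1 := rfl
      _ ≤ 2 ^ max 1 (ψ n) := Nat.pow_le_pow_right (by norm_num) (le_max_left _ _)
  have h3 : Le F (fun n => 2 ^ max 1 (rt k n * φ (rt k n))) := by
    refine le_mono (h2 fun n => rt k n * φ (rt k n)) hF ?_
    filter_upwards [hlow] with n hn
    rcases max_choice 1 (rt k n * φ (rt k n)) with h | h
    · rw [h]
      exact hF n
    · rw [h]
      exact hn _ (exists_rt hk n).1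
  refine h3.trans ((le_root_pow mφ h1 hk).trans
    (le_mono hF' (h2 fun n => n ^ k * φ (n ^ k)) ?_))
  filter_upwards [hup] with n hn
  exact hn.trans (Nat.pow_le_pow_right (by norm_num) (le_max_right _ _))

end lists

/-! ### Measure and the cardinals `cov(𝒩)`, `non(𝒩)` -/

section measure

open MeasureTheory ProbabilityTheory
open scoped ENNReal unitInterval

/-- the uniform distribution on `{0, ..., g - 1}`, for `g = 0` the point mass at `0` -/
noncomputable def unif (g : ℕ) : Measure ℕ :=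
  (PMF.uniformOfFinset (Finset.range (g - 1 + 1)) ⟨0, by simp⟩).toMeasure

instance (g : ℕ) : IsProbabilityMeasure (unif g) := by
  unfold unif
  infer_instance

theorem unif_singleton {g : ℕ} (hg : 2 ≤ g) (a : ℕ) :
    unif g {a} = if a < g then (g : ℝ≥0∞)⁻¹ else 0 := by
  unfold unif
  rw [PMF.toMeasure_apply_singleton _ _ (measurableSet_singleton a), PMF.uniformOfFinset_apply,
    Nat.sub_add_cancel (by omega), Finset.card_range]
  simp only [Finset.mem_range]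

/-- the product of the uniform distributions -/
noncomputable def prodU (G : ℕ → ℕ) : Measure (ℕ → ℕ) := Measure.infinitePi fun n => unif (G n)

instance (G : ℕ → ℕ) : IsProbabilityMeasure (prodU G) := by
  unfold prodU
  infer_instance

theorem prodU_coord (G : ℕ → ℕ) (n : ℕ) (s : Set ℕ) : prodU G {z | z n ∈ s} = unif (G n) s := by
  have h : {z : ℕ → ℕ | z n ∈ s} = Set.pi (({n} : Finset ℕ) : Set ℕ) (fun _ => s) := by
    ext z
    simp
  rw [h, prodU, Measure.infinitePi_pi _ (fun _ _ => MeasurableSet.of_discrete)]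
  simp

theorem prodU_le {G : ℕ → ℕ} (hG : ∀ n, 2 ≤ G n) (x : ℕ → ℕ) (n : ℕ) :
    prodU G {z | z n = x n} ≤ (G n : ℝ≥0∞)⁻¹ := by
  have h := prodU_coord G n {x n}
  rw [unif_singleton (hG n)] at h
  have h2 : {z : ℕ → ℕ | z n = x n} = {z | z n ∈ ({x n} : Set ℕ)} := by simp
  rw [h2, h]
  split_ifs <;> simp

theorem prodU_eq {G : ℕ → ℕ} (hG : ∀ n, 2 ≤ G n) {y : ℕ → ℕ} (hy : y ∈ Below G) (n : ℕ) :
    prodU G {z | z n = y n} = (G n : ℝ≥0∞)⁻¹ := by
  have h := prodU_coord G n {y n}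
  rw [unif_singleton (hG n), if_pos (hy n)] at h
  have h2 : {z : ℕ → ℕ | z n = y n} = {z | z n ∈ ({y n} : Set ℕ)} := by simp
  rw [h2, h]

/-- almost all members of the product are below `G` -/
theorem prodU_below {G : ℕ → ℕ} (hG : ∀ n, 2 ≤ G n) : prodU G (Below G)ᶜ = 0 := by
  have h : (Below G)ᶜ ⊆ ⋃ n, {z : ℕ → ℕ | z n ∈ (Set.Iio (G n))ᶜ} := by
    intro z hz
    simp only [Set.mem_compl_iff, Below, Set.mem_ofPred_eq, not_forall] at hz
    obtain ⟨n, hn⟩ := hz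
    exact Set.mem_iUnion.2 ⟨n, by simpa using hn⟩
  refine measure_mono_null h (measure_iUnion_null fun n => ?_)
  rw [prodU_coord]
  unfold unif
  rw [PMF.toMeasure_apply_eq_zero_iff _ MeasurableSet.of_discrete, PMF.support_uniformOfFinset,
    Nat.sub_add_cancel (by have := hG n; omega)]
  rw [Set.disjoint_left]
  intro a ha hb
  simp at ha hb
  omega

/-- first Borel-Cantelli lemma -/
theorem null_frequently {G : ℕ → ℕ} (hG : ∀ n, 2 ≤ G n)
    (hs : Summable fun n => (1 : ℝ) / G n) (x : ℕ → ℕ) :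
    prodU G {z | ∃ᶠ n in atTop, z n = x n} = 0 := by
  apply measure_setOfPred_frequently_eq_zero
  have h1 : ∑' n, (G n : ℝ≥0∞)⁻¹ ≠ ∞ := by
    have h2 : ∀ n, (G n : ℝ≥0∞)⁻¹ = ENNReal.ofReal ((1 : ℝ) / G n) := by
      intro n
      have : (0 : ℝ) < G n := by
        have := hG n
        exact_mod_cast (by omega : 0 < G n)
      rw [one_div, ENNReal.ofReal_inv_of_pos this, ENNReal.ofReal_natCast]
    simp only [h2]
    exact hs.tsum_ofReal_ne_top
  exact ne_top_of_le_ne_top h1 (ENNReal.tsum_le_tsum fun n => prodU_le hG x n)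

/-- second Borel-Cantelli lemma -/
theorem null_evDiff {G : ℕ → ℕ} (hG : ∀ n, 2 ≤ G n)
    (hs : ¬ Summable fun n => (1 : ℝ) / G n) {y : ℕ → ℕ} (hy : y ∈ Below G) :
    prodU G {z | EvDiff z y} = 0 := by
  have hm : ∀ n, MeasurableSet {z : ℕ → ℕ | z n = y n} := fun n =>
    measurableSet_eq_fun (measurable_pi_apply n) measurable_const
  have hind : iIndepSet (fun n => {z : ℕ → ℕ | z n = y n}) (prodU G) := by
    rw [iIndepSet_iff_meas_biInter hm]
    intro s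
    have h1 : (⋂ i ∈ s, {z : ℕ → ℕ | z i = y i}) = Set.pi (s : Set ℕ) (fun i => {y i}) := by
      ext z
      simp
    rw [h1, prodU, Measure.infinitePi_pi _ (fun _ _ => MeasurableSet.of_discrete)]
    refine Finset.prod_congr rfl fun i _ => ?_
    rw [← prodU_coord G i {y i}]
    rfl
  have hsum : ∑' n, prodU G {z : ℕ → ℕ | z n = y n} = ∞ := by
    by_contra hc
    apply hs
    have h1 : ∑' n, (G n : ℝ≥0∞)⁻¹ ≠ ∞ := by
      have h3 : ∀ n, prodU G {z | z n = y n} = (G n : ℝ≥0∞)⁻¹ := fun n => prodU_eq hG hy n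
      simpa only [h3] using hc
    have h2 := ENNReal.summable_toReal h1
    refine h2.congr fun n => ?_
    simp
  have h1 := measure_limsup_eq_one hm hind hsum
  have h2 : {z : ℕ → ℕ | EvDiff z y} ⊆ (limsup (fun n => {z : ℕ → ℕ | z n = y n}) atTop)ᶜ := by
    intro z hz hz2
    rw [mem_limsup_iff_frequently_mem] at hz2
    exact hz2 hz
  refine measure_mono_null h2 ?_
  rw [prob_compl_eq_zero_iff]
  · exact h1
  · exact MeasurableSet.measurableSet_limsup hm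

end measure

section transfer

open MeasureTheory

theorem exists_non : ∃ A : Set unitInterval, volume A ≠ 0 ∧ #A = nonN := by
  have hne : {κ | ∃ A : Set unitInterval, volume A ≠ 0 ∧ #A = κ}.Nonempty :=
    ⟨_, Set.univ, by simp, rfl⟩
  exact csInf_mem hne

theorem evDiff_not {x y : ℕ → ℕ} (h : ¬ EvDiff x y) : ∃ᶠ n in atTop, x n = y n := by
  intro h2
  exact h h2

theorem dNe_le_nonN {G : ℕ → ℕ} (hG : ∀ n, 2 ≤ G n) (hs : Summable fun n => (1 : ℝ) / G n) :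
    dNe G ≤ nonN := by
  obtain ⟨f, hf, hmap⟩ := (prodU G).exists_measurable_map_eq
  obtain ⟨A, hA, hcard⟩ := exists_non
  rw [← hcard]
  have hpre : ∀ S : Set (ℕ → ℕ), prodU G S = 0 → volume (f ⁻¹' S) = 0 := fun S hS =>
    Measure.preimage_null_of_map_null hf.aemeasurable (by rw [hmap]; exact hS)
  have hmem : #(f '' (A ∩ f ⁻¹' Below G)) ∈ {κ | ∃ 𝒢 : Set (ℕ → ℕ), 𝒢 ⊆ Below G ∧
      (∀ x : ℕ → ℕ, ∃ y ∈ 𝒢, EvDiff x y) ∧ #𝒢 = κ} := by
    refine ⟨_, ?_, fun x => ?_, rfl⟩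
    · rintro _ ⟨ω, hω, rfl⟩
      exact hω.2
    · by_contra hc
      push Not at hc
      apply hA
      have hsub : A ⊆ f ⁻¹' (Below G)ᶜ ∪ f ⁻¹' {z | ∃ᶠ n in atTop, z n = x n} := by
        intro ω hω
        by_cases h1 : f ω ∈ Below G
        · right
          have h2 := hc (f ω) ⟨ω, ⟨hω, h1⟩, rfl⟩
          exact (evDiff_not h2).mono fun n hn => hn.symm
        · left
          exact h1
      refine measure_mono_null hsub (measure_union_null (hpre _ (prodU_below hG))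
        (hpre _ (null_frequently hG hs x)))
  refine (csInf_le' hmem).trans (Cardinal.mk_image_le.trans (Cardinal.mk_le_mk_of_subset ?_))
  exact Set.inter_subset_left

theorem covN_le_bNe {G : ℕ → ℕ} (hG : ∀ n, 2 ≤ G n) (hs : Summable fun n => (1 : ℝ) / G n) :
    covN ≤ bNe G := by
  obtain ⟨f, hf, hmap⟩ := (prodU G).exists_measurable_map_eq
  obtain ⟨ℱ, hwit, hcard⟩ := exists_b G
  rw [← hcard]
  have hpre : ∀ S : Set (ℕ → ℕ), prodU G S = 0 → volume (f ⁻¹' S) = 0 := fun S hS =>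
    Measure.preimage_null_of_map_null hf.aemeasurable (by rw [hmap]; exact hS)
  have hmem : #((fun x => f ⁻¹' ((Below G)ᶜ ∪ {z | ∃ᶠ n in atTop, z n = x n})) '' ℱ) ∈
      {κ | ∃ 𝒩 : Set (Set unitInterval), (∀ N ∈ 𝒩, volume N = 0) ∧ ⋃₀ 𝒩 = Set.univ ∧
        #𝒩 = κ} := by
    refine ⟨_, ?_, ?_, rfl⟩
    · rintro _ ⟨x, -, rfl⟩
      exact hpre _ (measure_union_null (prodU_below hG) (null_frequently hG hs x))
    · refine Set.eq_univ_of_forall fun ω => ?_
      by_cases h1 : f ω ∈ Below G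
      · have h2 : ∃ x ∈ ℱ, ¬ EvDiff x (f ω) := by
          by_contra hc
          push Not at hc
          exact hwit ⟨f ω, h1, hc⟩
        obtain ⟨x, hx, hxe⟩ := h2
        exact ⟨_, ⟨x, hx, rfl⟩, Or.inr ((evDiff_not hxe).mono fun n hn => hn.symm)⟩
      · have h2 : ∃ x, x ∈ ℱ := by
          by_contra hc
          push Not at hc
          exact hwit ⟨fun _ => 0, fun n => by have := hG n; show 0 < G n; omega,
            fun x hx => absurd hx (hc x)⟩
        obtain ⟨x, hx⟩ := h2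
        exact ⟨_, ⟨x, hx, rfl⟩, Or.inl h1⟩
  exact (csInf_le' hmem).trans Cardinal.mk_image_le

theorem covN_le_dNe {F : ℕ → ℕ} (hF : ∀ n, 2 ≤ F n) (hs : ¬ Summable fun n => (1 : ℝ) / F n) :
    covN ≤ dNe F := by
  obtain ⟨f, hf, hmap⟩ := (prodU F).exists_measurable_map_eq
  obtain ⟨𝒢, hsub, hwit, hcard⟩ := exists_d hF
  rw [← hcard]
  have hpre : ∀ S : Set (ℕ → ℕ), prodU F S = 0 → volume (f ⁻¹' S) = 0 := fun S hS =>
    Measure.preimage_null_of_map_null hf.aemeasurable (by rw [hmap]; exact hS)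
  have hmem : #((fun y => f ⁻¹' {z | EvDiff z y}) '' 𝒢) ∈
      {κ | ∃ 𝒩 : Set (Set unitInterval), (∀ N ∈ 𝒩, volume N = 0) ∧ ⋃₀ 𝒩 = Set.univ ∧
        #𝒩 = κ} := by
    refine ⟨_, ?_, ?_, rfl⟩
    · rintro _ ⟨y, hy, rfl⟩
      exact hpre _ (null_evDiff hF hs (hsub hy))
    · refine Set.eq_univ_of_forall fun ω => ?_
      obtain ⟨y, hy, hxy⟩ := hwit (f ω)
      exact ⟨_, ⟨y, hy, rfl⟩, hxy⟩
  exact (csInf_le' hmem).trans Cardinal.mk_image_le

theorem bNe_le_nonN {F : ℕ → ℕ} (hF : ∀ n, 2 ≤ F n) (hs : ¬ Summable fun n => (1 : ℝ) / F n) :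
    bNe F ≤ nonN := by
  obtain ⟨f, hf, hmap⟩ := (prodU F).exists_measurable_map_eq
  obtain ⟨A, hA, hcard⟩ := exists_non
  rw [← hcard]
  have hpre : ∀ S : Set (ℕ → ℕ), prodU F S = 0 → volume (f ⁻¹' S) = 0 := fun S hS =>
    Measure.preimage_null_of_map_null hf.aemeasurable (by rw [hmap]; exact hS)
  have hmem : #(f '' A) ∈ {κ | ∃ ℱ : Set (ℕ → ℕ),
      (¬ ∃ y ∈ Below F, ∀ x ∈ ℱ, EvDiff x y) ∧ #ℱ = κ} := by
    refine ⟨_, ?_, rfl⟩
    rintro ⟨y, hy, hall⟩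
    apply hA
    refine measure_mono_null (fun ω hω => ?_) (hpre _ (null_evDiff hF hs hy))
    exact hall _ ⟨ω, hω, rfl⟩
  exact (csInf_le' hmem).trans Cardinal.mk_image_le

end transfer

/-! ### Order functions -/

theorem exists_faster {F : ℕ → ℕ} (hF : IsOrder F) :
    ∃ G, IsOrder G ∧ Faster F G ∧ Summable fun n => (1 : ℝ) / G n := by
  obtain ⟨h1, h2, h3, h4⟩ := hF
  refine ⟨fun n => F n * ((n + 1) * (n + 1)), ⟨?_, ?_, ?_, ?_⟩, ?_, ?_⟩
  · have h5 : Computable fun n : ℕ => n + 1 := Computable.succ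
    have h6 : Computable fun n : ℕ => (n + 1) * (n + 1) :=
      Primrec.nat_mul.to_comp.comp h5 h5
    exact Primrec.nat_mul.to_comp.comp h1 h6
  · intro a b hab
    exact Nat.mul_le_mul (h2 hab) (Nat.mul_le_mul (by omega) (by omega))
  · intro b
    obtain ⟨n, hn⟩ := h3 b
    exact ⟨n, hn.trans (Nat.le_mul_of_pos_right _ (by positivity))⟩
  · intro n
    exact (h4 n).trans (Nat.le_mul_of_pos_right _ (by positivity))
  · have h5 : (fun n : ℕ => ((F n * ((n + 1) * (n + 1)) : ℕ) : ℝ) / F n) =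
        fun n : ℕ => ((n : ℝ) + 1) * ((n : ℝ) + 1) := by
      funext n
      have h6 : (F n : ℝ) ≠ 0 := by
        have := h4 n
        exact_mod_cast (by omega : F n ≠ 0)
      push_cast
      field_simp
    unfold Faster
    rw [h5]
    have h7 : Tendsto (fun n : ℕ => (n : ℝ) + 1) atTop atTop :=
      tendsto_atTop_add_const_right _ _ tendsto_natCast_atTop_atTop
    exact h7.atTop_mul_atTop₀ h7
  · have h5 : Summable fun n : ℕ => (1 : ℝ) / ((n : ℝ) + 1) ^ 2 := by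
      have := (summable_nat_add_iff 1).2 (Real.summable_one_div_nat_pow.2 (by norm_num : 1 < 2))
      simpa using this
    refine Summable.of_nonneg_of_le (fun n => by positivity) (fun n => ?_) h5
    have h6 : (1 : ℝ) ≤ F n := by
      have := h4 n
      exact_mod_cast (by omega : 1 ≤ F n)
    push_cast
    apply one_div_le_one_div_of_le (by positivity)
    nlinarith [sq_nonneg ((n : ℝ) + 1)]

/-- **The cardinals `𝔡(≠*, F)` and `𝔟(≠*, F)` for fast and for slow functions `F`.** -/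
theorem result :
    -- (1) the bounds between `2^(B(n^(1/k)))` and `2^(B(n^k))`, `B(n) = n φ(n)`
    (∀ φ : ℕ → ℕ, Monotone φ → (∀ n, 1 ≤ φ n) → ∀ k : ℕ, 1 ≤ k → ∀ F G : ℕ → ℕ,
      (∀ n, 2 ≤ F n) → (∀ n, 2 ≤ G n) →
      (∀ᶠ n in atTop, (∀ t : ℕ, t ^ k ≤ n → 2 ^ (t * φ t) ≤ F n) ∧
        F n ≤ 2 ^ (n ^ k * φ (n ^ k))) →
      (∀ᶠ n in atTop, (∀ t : ℕ, t ^ k ≤ n → 2 ^ (t * φ t) ≤ G n) ∧
        G n ≤ 2 ^ (n ^ k * φ (n ^ k))) →
      dNe F = dNe G ∧ bNe F = bNe G) ∧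
    -- (2) the bounds between `2^(n^(1/k))` and `2^(n^k)`
    (∀ k : ℕ, 1 ≤ k → ∀ F : ℕ → ℕ, (∀ n, 2 ≤ F n) →
      (∀ᶠ n in atTop, (∀ t : ℕ, t ^ k ≤ n → 2 ^ t ≤ F n) ∧ F n ≤ 2 ^ (n ^ k)) →
      dNe F = dNe (fun n => 2 ^ (n + 1)) ∧ bNe F = bNe (fun n => 2 ^ (n + 1))) ∧
    -- (3) the bounds between `2^(2^(n^(1/k)))` and `2^(2^(n^k))`
    (∀ k : ℕ, 1 ≤ k → ∀ F : ℕ → ℕ, (∀ n, 2 ≤ F n) →
      (∀ᶠ n in atTop, (∀ t : ℕ, t ^ k ≤ n → 2 ^ (2 ^ t) ≤ F n) ∧ F n ≤ 2 ^ (2 ^ (n ^ k))) →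
      dNe F = dNe (fun n => 2 ^ (2 ^ n)) ∧ bNe F = bNe (fun n => 2 ^ (2 ^ n))) ∧
    -- (4) the ideal of the null sets
    (∀ F : ℕ → ℕ, (∀ n, 2 ≤ F n) →
      ((¬ Summable fun n => (1 : ℝ) / F n) → covN ≤ dNe F ∧ bNe F ≤ nonN) ∧
      ((Summable fun n => (1 : ℝ) / F n) → dNe F ≤ nonN ∧ covN ≤ bNe F)) ∧
    -- (5) order functions `F` with divergent sum
    (∀ F : ℕ → ℕ, IsOrder F → (¬ Summable fun n => (1 : ℝ) / F n) →
      ∃ G : ℕ → ℕ, IsOrder G ∧ Faster F G ∧ (nonN < covN → dNe G < dNe F)) := by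
  have main : ∀ φ : ℕ → ℕ, Monotone φ → (∀ n, 1 ≤ φ n) → ∀ k : ℕ, 1 ≤ k → ∀ F G : ℕ → ℕ,
      (∀ n, 2 ≤ F n) → (∀ n, 2 ≤ G n) →
      (∀ᶠ n in atTop, (∀ t : ℕ, t ^ k ≤ n → 2 ^ (t * φ t) ≤ F n) ∧
        F n ≤ 2 ^ (n ^ k * φ (n ^ k))) →
      (∀ᶠ n in atTop, (∀ t : ℕ, t ^ k ≤ n → 2 ^ (t * φ t) ≤ G n) ∧
        G n ≤ 2 ^ (n ^ k * φ (n ^ k))) →
      dNe F = dNe G ∧ bNe F = bNe G := by
    intro φ mφ h1 k hk F G hF hG hFb hGb
    have h3 : Le F G := range_le (k := k) hk mφ h1 hF hG (hFb.mono fun n h => h.1)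
      (hGb.mono fun n h => h.2)
    have h4 : Le G F := range_le (k := k) hk mφ h1 hG hF (hGb.mono fun n h => h.1)
      (hFb.mono fun n h => h.2)
    exact ⟨le_antisymm h3.1 h4.1, le_antisymm h4.2 h3.2⟩
  refine ⟨main, ?_, ?_, ?_, ?_⟩
  · intro k hk F hF hb
    refine main (fun _ => 1) monotone_const (fun _ => le_rfl) (k + 1) (by omega) F _ hF
      (fun n => ?_) ?_ ?_
    · show 2 ≤ 2 ^ (n + 1)
      calc 2 = 2 ^ 1 := rfl
        _ ≤ 2 ^ (n + 1) := Nat.pow_le_pow_right (by norm_num) (by omega)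
    · filter_upwards [hb, eventually_ge_atTop 1] with n hn hn1
      refine ⟨fun t ht => ?_, ?_⟩
      · rw [mul_one]
        rcases Nat.eq_zero_or_pos t with h0 | h0
        · rw [h0, pow_zero]
          have := hF n
          omega
        · exact hn.1 t ((Nat.pow_le_pow_right h0 (by omega)).trans ht)
      · rw [mul_one]
        exact hn.2.trans (Nat.pow_le_pow_right (by norm_num) (Nat.pow_le_pow_right hn1 (by omega)))
    · filter_upwards [eventually_ge_atTop 2] with n hn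
      refine ⟨fun t ht => ?_, ?_⟩
      · rw [mul_one]
        have h5 : t ≤ t ^ (k + 1) := Nat.le_self_pow (by omega) t
        exact Nat.pow_le_pow_right (by norm_num) (by omega)
      · rw [mul_one]
        refine Nat.pow_le_pow_right (by norm_num) ?_
        calc n + 1 ≤ n ^ 2 := by nlinarith
          _ ≤ n ^ (k + 1) := Nat.pow_le_pow_right (by omega) (by omega)
  · have tt : ∀ t : ℕ, t * 2 ^ t ≤ 2 ^ (t ^ 2) := by
      intro t
      rcases Nat.lt_or_ge t 2 with h | h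
      · interval_cases t <;> norm_num
      · calc t * 2 ^ t ≤ 2 ^ t * 2 ^ t := Nat.mul_le_mul_right _ Nat.lt_two_pow_self.le
          _ = 2 ^ (2 * t) := by rw [← pow_add, two_mul]
          _ ≤ 2 ^ (t ^ 2) := Nat.pow_le_pow_right (by norm_num) (by nlinarith)
    intro k hk F hF hb
    refine main (fun n => 2 ^ n) (fun _ _ h => Nat.pow_le_pow_right (by norm_num) h)
      (fun _ => Nat.one_le_two_pow) (2 * k) (by omega) F _ hF (fun n => ?_) ?_ ?_
    · show 2 ≤ 2 ^ (2 ^ n)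
      calc 2 = 2 ^ 1 := rfl
        _ ≤ 2 ^ (2 ^ n) := Nat.pow_le_pow_right (by norm_num) Nat.one_le_two_pow
    · filter_upwards [hb, eventually_ge_atTop 1] with n hn hn1
      refine ⟨fun t ht => ?_, ?_⟩
      · have h5 := hn.1 (t ^ 2) (by rwa [← pow_mul])
        exact (Nat.pow_le_pow_right (by norm_num) (tt t)).trans h5
      · refine hn.2.trans (Nat.pow_le_pow_right (by norm_num) ?_)
        calc 2 ^ (n ^ k) ≤ 2 ^ (n ^ (2 * k)) :=
              Nat.pow_le_pow_right (by norm_num) (Nat.pow_le_pow_right hn1 (by omega))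
          _ ≤ n ^ (2 * k) * 2 ^ (n ^ (2 * k)) :=
              Nat.le_mul_of_pos_left _ (Nat.pow_pos hn1)
    · filter_upwards [eventually_ge_atTop 1] with n hn
      refine ⟨fun t ht => Nat.pow_le_pow_right (by norm_num) ?_,
        Nat.pow_le_pow_right (by norm_num) ?_⟩
      · have h5 : t ^ 2 ≤ n := by
          rcases Nat.eq_zero_or_pos t with h0 | h0
          · rw [h0]
            exact Nat.zero_le _
          · exact (Nat.pow_le_pow_right h0 (by omega)).trans ht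
        exact (tt t).trans (Nat.pow_le_pow_right (by norm_num) h5)
      · have h5 : n ≤ n ^ (2 * k) := Nat.le_self_pow (by omega) n
        calc 2 ^ n ≤ 2 ^ (n ^ (2 * k)) := Nat.pow_le_pow_right (by norm_num) h5
          _ ≤ n ^ (2 * k) * 2 ^ (n ^ (2 * k)) := Nat.le_mul_of_pos_left _ (Nat.pow_pos hn)
  · intro F hF
    exact ⟨fun hs => ⟨covN_le_dNe hF hs, bNe_le_nonN hF hs⟩,
      fun hs => ⟨dNe_le_nonN hF hs, covN_le_bNe hF hs⟩⟩
  · intro F hF hs
    obtain ⟨G, hG1, hG2, hG3⟩ := exists_faster hF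
    exact ⟨G, hG1, hG2, fun hlt =>
      (dNe_le_nonN hG1.2.2.2 hG3).trans_lt (hlt.trans_le (covN_le_dNe hF.2.2.2 hs))⟩

end Pool.Agent.Results.MP_081461_lc.EqualitiesAndMeasure
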